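import Pool.Agent.Helper61.Tri.Goals

/-!
# MP_5b3c48_co, packet EPTOOLS: bookkeeping for expanded paths
-/

set_option autoImplicit false

open Finset

namespace Pool.Agent.Helper60.Tri

open Pool.Agent.Helper61.Tri

noncomputable section

open scoped Classical

theorem ep_mono {V : Type} {G G' : SimpleGraph V} {l : ℕ} {u v : V} {S S' : Finset V}
    (h : EP G l u v S) (hG : G ≤ G') (hS : S ⊆ S') : EP G' l u v S' := by
  obtain ⟨c, a, ⟨h1, h2, h3, h4⟩, h5, h6, h7, h8⟩ := h
  exact ⟨c, a, ⟨fun i hi => ⟨hG (h1 i hi).1, hG (h1 i hi).2.1, hG (h1 i hi).2.2⟩, h2, h3, h4⟩,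
    h5, h6, fun i hi => hS (h7 i hi), fun i hi => hS (h8 i hi)⟩

theorem ep_refl {V : Type} (G : SimpleGraph V) (u : V) : EP G 0 u u {u} := by
  refine ⟨fun _ => u, fun _ => u, ⟨?_, ?_, ?_, ?_⟩, rfl, rfl, ?_, ?_⟩
  · intro i hi; omega
  · intro i hi j hj _; omega
  · intro i hi; omega
  · intro i _ j hj; omega
  · intro i _; simp
  · intro i hi; omega

theorem ep_single {V : Type} {G : SimpleGraph V} {u v a : V} (h1 : G.Adj u v) (h2 : G.Adj u a)
    (h3 : G.Adj v a) : EP G 1 u v {u, v, a} := by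
  refine ⟨fun i => if i = 0 then u else v, fun _ => a, ⟨?_, ?_, ?_, ?_⟩, by simp, by simp, ?_, ?_⟩
  · intro i hi
    have : i = 0 := by omega
    subst this
    simpa using ⟨h1, h2, h3⟩
  · intro i hi j hj hij
    by_cases hi0 : i = 0 <;> by_cases hj0 : j = 0
    · omega
    · simp only [hi0, hj0, if_true, if_false] at hij
      exact absurd hij h1.ne
    · simp only [hi0, hj0, if_true, if_false] at hij
      exact absurd hij.symm h1.ne
    · omega
  · intro i hi j hj _; omega
  · intro i hi j hj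
    by_cases hi0 : i = 0
    · simp only [hi0, if_true]; exact h2.ne
    · simp only [hi0, if_false]; exact h3.ne
  · intro i hi
    by_cases hi0 : i = 0 <;> simp [hi0]
  · intro i hi; simp

theorem ep_symm {V : Type} {G : SimpleGraph V} {l : ℕ} {u v : V} {S : Finset V}
    (h : EP G l u v S) : EP G l v u S := by
  obtain ⟨c, a, ⟨h1, h2, h3, h4⟩, h5, h6, h7, h8⟩ := h
  refine ⟨fun i => c (l - i), fun i => a (l - 1 - i), ⟨?_, ?_, ?_, ?_⟩, by simpa using h6,
    by simpa using h5, fun i hi => h7 _ (by omega), fun i hi => h8 _ (by omega)⟩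
  · intro i hi
    have e1 : l - i = (l - 1 - i) + 1 := by omega
    have e2 : l - (i + 1) = l - 1 - i := by omega
    simp only [e1, e2]
    obtain ⟨g1, g2, g3⟩ := h1 (l - 1 - i) (by omega)
    exact ⟨g1.symm, g3, g2⟩
  · intro i hi j hj hij
    have := h2 _ (by omega) _ (by omega) hij
    omega
  · intro i hi j hj hij
    have := h3 _ (by omega) _ (by omega) hij
    omega
  · intro i hi j hj
    exact h4 _ (by omega) _ (by omega)

theorem ep_trans {V : Type} {G : SimpleGraph V} {l l' : ℕ} {u v w : V} {S S' : Finset V}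
    (h : EP G l u v S) (h' : EP G l' v w S') (hS : S ∩ S' ⊆ {v}) :
    EP G (l + l') u w (S ∪ S') := by
  obtain ⟨c1, a1, ⟨h1, h2, h3, h4⟩, h5, h6, h7, h8⟩ := h
  obtain ⟨c2, a2, ⟨k1, k2, k3, k4⟩, k5, k6, k7, k8⟩ := h'
  have hv : ∀ x, x ∈ S → x ∈ S' → x = v := by
    intro x hx hx'
    have := hS (Finset.mem_inter.2 ⟨hx, hx'⟩)
    simpa using this
  -- cross conditions
  have cc : ∀ i ≤ l, ∀ j ≤ l', c1 i = c2 j → i = l ∧ j = 0 := by
    intro i hi j hj hij
    have e := hv (c1 i) (h7 i hi) (hij ▸ k7 j hj)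
    exact ⟨h2 i hi l le_rfl (e.trans h6.symm),
      k2 j hj 0 (Nat.zero_le _) ((hij.symm.trans e).trans k5.symm)⟩
  have aa : ∀ i < l, ∀ j < l', a1 i ≠ a2 j := by
    intro i hi j hj hij
    have e := hv (a1 i) (h8 i hi) (hij ▸ k8 j hj)
    exact h4 l le_rfl i hi (h6.trans e.symm)
  have ca : ∀ i ≤ l, ∀ j < l', c1 i ≠ a2 j := by
    intro i hi j hj hij
    have e := hv (c1 i) (h7 i hi) (hij ▸ k8 j hj)
    exact k4 0 (Nat.zero_le _) j hj ((k5.trans e.symm).trans hij)
  have ac : ∀ i ≤ l', ∀ j < l, c2 i ≠ a1 j := by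
    intro i hi j hj hij
    have e := hv (a1 j) (h8 j hj) (hij ▸ k7 i hi)
    exact h4 l le_rfl j hj (h6.trans e.symm)
  have hc1 : ∀ i ≤ l, (fun i => if i ≤ l then c1 i else c2 (i - l)) i = c1 i := by
    intro i hi; simp [hi]
  have hc2 : ∀ i, l ≤ i → (fun i => if i ≤ l then c1 i else c2 (i - l)) i = c2 (i - l) := by
    intro i hi
    by_cases hil : i ≤ l
    · have : i = l := by omega
      subst this
      simp [h6, k5]
    · simp [hil]
  have ha1 : ∀ i < l, (fun i => if i < l then a1 i else a2 (i - l)) i = a1 i := by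
    intro i hi; simp [hi]
  have ha2 : ∀ i, l ≤ i → (fun i => if i < l then a1 i else a2 (i - l)) i = a2 (i - l) := by
    intro i hi
    have : ¬ i < l := by omega
    simp [this]
  refine ⟨fun i => if i ≤ l then c1 i else c2 (i - l), fun i => if i < l then a1 i else a2 (i - l),
    ⟨?_, ?_, ?_, ?_⟩, ?_, ?_, ?_, ?_⟩
  · intro i hi
    by_cases hil : i < l
    · rw [hc1 i hil.le, hc1 (i + 1) hil, ha1 i hil]
      exact h1 i hil
    · have hil' : l ≤ i := by omega
      rw [hc2 i hil', hc2 (i + 1) (by omega), ha2 i hil']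
      have e : i + 1 - l = (i - l) + 1 := by omega
      rw [e]
      exact k1 (i - l) (by omega)
  · intro i hi j hj hij
    by_cases hil : i ≤ l <;> by_cases hjl : j ≤ l
    · rw [hc1 i hil, hc1 j hjl] at hij
      exact h2 i hil j hjl hij
    · rw [hc1 i hil, hc2 j (by omega)] at hij
      have := cc i hil (j - l) (by omega) hij
      omega
    · rw [hc2 i (by omega), hc1 j hjl] at hij
      have := cc j hjl (i - l) (by omega) hij.symm
      omega
    · rw [hc2 i (by omega), hc2 j (by omega)] at hij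
      have := k2 (i - l) (by omega) (j - l) (by omega) hij
      omega
  · intro i hi j hj hij
    by_cases hil : i < l <;> by_cases hjl : j < l
    · rw [ha1 i hil, ha1 j hjl] at hij
      exact h3 i hil j hjl hij
    · rw [ha1 i hil, ha2 j (by omega)] at hij
      exact absurd hij (aa i hil (j - l) (by omega))
    · rw [ha2 i (by omega), ha1 j hjl] at hij
      exact absurd hij.symm (aa j hjl (i - l) (by omega))
    · rw [ha2 i (by omega), ha2 j (by omega)] at hij
      have := k3 (i - l) (by omega) (j - l) (by omega) hij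
      omega
  · intro i hi j hj hij
    by_cases hil : i ≤ l <;> by_cases hjl : j < l
    · rw [hc1 i hil, ha1 j hjl] at hij
      exact h4 i hil j hjl hij
    · rw [hc1 i hil, ha2 j (by omega)] at hij
      exact ca i hil (j - l) (by omega) hij
    · rw [hc2 i (by omega), ha1 j hjl] at hij
      exact ac (i - l) (by omega) j hjl hij
    · rw [hc2 i (by omega), ha2 j (by omega)] at hij
      exact k4 (i - l) (by omega) (j - l) (by omega) hij
  · rw [hc1 0 (Nat.zero_le _)]; exact h5
  · rw [hc2 (l + l') (by omega)]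
    have e : l + l' - l = l' := by omega
    rw [e]; exact k6
  · intro i hi
    by_cases hil : i ≤ l
    · rw [hc1 i hil]; exact Finset.mem_union_left _ (h7 i hil)
    · rw [hc2 i (by omega)]; exact Finset.mem_union_right _ (k7 _ (by omega))
  · intro i hi
    by_cases hil : i < l
    · rw [ha1 i hil]; exact Finset.mem_union_left _ (h8 i hil)
    · rw [ha2 i (by omega)]; exact Finset.mem_union_right _ (k8 _ (by omega))

theorem ep_trunc {V : Type} {G : SimpleGraph V} {l : ℕ} {u v : V} {S : Finset V}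
    (h : EP G (l + 1) u v S) : ∃ w, EP G l u w S := by
  obtain ⟨c, a, ⟨h1, h2, h3, h4⟩, h5, h6, h7, h8⟩ := h
  exact ⟨c l, c, a, ⟨fun i hi => h1 i (by omega), fun i hi j hj => h2 i (by omega) j (by omega),
    fun i hi j hj => h3 i (by omega) j (by omega), fun i hi j hj => h4 i (by omega) j (by omega)⟩,
    h5, rfl, fun i hi => h7 i (by omega), fun i hi => h8 i (by omega)⟩

/-- The vertex set of an expanded path. -/
def eset {V : Type} (c a : ℕ → V) (l : ℕ) : Finset V :=
  (range (l + 1)).image c ∪ (range l).image a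

theorem ep_of {V : Type} {G : SimpleGraph V} {l : ℕ} {c a : ℕ → V} (h : IsEP G l c a) :
    EP G l (c 0) (c l) (eset c a l) := by
  refine ⟨c, a, h, rfl, rfl, fun i hi => ?_, fun i hi => ?_⟩
  · exact Finset.mem_union_left _ (Finset.mem_image_of_mem _ (Finset.mem_range.2 (by omega)))
  · exact Finset.mem_union_right _ (Finset.mem_image_of_mem _ (Finset.mem_range.2 hi))

theorem mem_eset {V : Type} {c a : ℕ → V} {l : ℕ} {x : V} :
    x ∈ eset c a l ↔ (∃ i ≤ l, c i = x) ∨ ∃ i < l, a i = x := by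
  simp only [eset, Finset.mem_union, Finset.mem_image, Finset.mem_range, Nat.lt_succ_iff]

theorem card_eset {V : Type} {G : SimpleGraph V} {l : ℕ} {c a : ℕ → V} (h : IsEP G l c a) :
    (eset c a l).card = 2 * l + 1 := by
  obtain ⟨-, h2, h3, h4⟩ := h
  rw [eset, Finset.card_union_of_disjoint, Finset.card_image_of_injOn, Finset.card_image_of_injOn,
    Finset.card_range, Finset.card_range]
  · omega
  · intro i hi j hj hij
    exact h3 i (by simpa using hi) j (by simpa using hj) hij
  · intro i hi j hj hij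
    exact h2 i (by simpa [Nat.lt_succ_iff] using hi) j (by simpa [Nat.lt_succ_iff] using hj) hij
  · rw [Finset.disjoint_left]
    intro x hx hx'
    obtain ⟨i, hi, rfl⟩ := Finset.mem_image.1 hx
    obtain ⟨j, hj, hj'⟩ := Finset.mem_image.1 hx'
    exact h4 i (Nat.lt_succ_iff.1 (Finset.mem_range.1 hi)) j (Finset.mem_range.1 hj) hj'.symm

theorem ep_shrink {V : Type} {G : SimpleGraph V} {l : ℕ} {u v : V} {S : Finset V}
    (h : EP G l u v S) : ∃ S' ⊆ S, EP G l u v S' ∧ S'.card = 2 * l + 1 ∧ u ∈ S' ∧ v ∈ S' := by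
  obtain ⟨c, a, h0, rfl, rfl, h7, h8⟩ := h
  refine ⟨eset c a l, ?_, ep_of h0, card_eset h0, mem_eset.2 (Or.inl ⟨0, Nat.zero_le _, rfl⟩),
    mem_eset.2 (Or.inl ⟨l, le_rfl, rfl⟩)⟩
  intro x hx
  rcases mem_eset.1 hx with ⟨i, hi, rfl⟩ | ⟨i, hi, rfl⟩
  · exact h7 i hi
  · exact h8 i hi

theorem ep_close {V : Type} {G : SimpleGraph V} {l l' : ℕ} {u v : V} {S S' : Finset V}
    (h : EP G l u v S) (h' : EP G l' v u S') (hS : S ∩ S' ⊆ {u, v}) (hl : 1 ≤ l)
    (hl' : 1 ≤ l') : ECyc G (l + l') := by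
  obtain ⟨m, rfl⟩ : ∃ m, l' = m + 1 := ⟨l' - 1, by omega⟩
  obtain ⟨c, a, ⟨k1, k2, k3, k4⟩, k5, k6, k7, k8⟩ := h'
  have h0 : IsEP G m c a := ⟨fun i hi => k1 i (by omega), fun i hi j hj => k2 i (by omega) j
    (by omega), fun i hi j hj => k3 i (by omega) j (by omega), fun i hi j hj => k4 i (by omega) j
    (by omega)⟩
  have h1 := ep_of h0
  rw [k5] at h1
  have hsub : ∀ x ∈ eset c a m, x ∈ S' := by
    intro x hx
    rcases mem_eset.1 hx with ⟨i, hi, rfl⟩ | ⟨i, hi, rfl⟩
    · exact k7 i (by omega)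
    · exact k8 i (by omega)
  have h2 : S ∩ eset c a m ⊆ {v} := by
    intro x hx
    obtain ⟨hx1, hx2⟩ := Finset.mem_inter.1 hx
    have h3 := hS (Finset.mem_inter.2 ⟨hx1, hsub x hx2⟩)
    rw [Finset.mem_insert, Finset.mem_singleton] at h3
    rcases h3 with rfl | rfl
    · exfalso
      rcases mem_eset.1 hx2 with ⟨i, hi, hi'⟩ | ⟨i, hi, hi'⟩
      · have := k2 i (by omega) (m + 1) le_rfl (hi'.trans k6.symm)
        omega
      · exact k4 (m + 1) le_rfl i (by omega) (k6.trans hi'.symm)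
    · simp
  have h3 := ep_trans h h1 h2
  obtain ⟨g1, g2, g3⟩ := k1 m (by omega)
  rw [k6] at g1 g3
  refine ⟨u, c m, a m, S ∪ eset c a m, ?_, g1.symm, g3, g2, ?_⟩
  · have e : l + (m + 1) - 1 = l + m := by omega
    rw [e]
    exact h3
  · intro hmem
    rcases Finset.mem_union.1 hmem with hm | hm
    · have h4 := hS (Finset.mem_inter.2 ⟨hm, k8 m (by omega)⟩)
      rw [Finset.mem_insert, Finset.mem_singleton] at h4
      rcases h4 with h4 | h4
      · exact k4 (m + 1) le_rfl m (by omega) (k6.trans h4.symm)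
      · exact k4 0 (Nat.zero_le _) m (by omega) (k5.trans h4.symm)
    · rcases mem_eset.1 hm with ⟨i, hi, hi'⟩ | ⟨i, hi, hi'⟩
      · exact k4 i (by omega) m (by omega) hi'
      · have := k3 i (by omega) m (by omega) hi'
        omega

theorem has_mono {V : Type} {G G' : SimpleGraph V} (κ : Kind) (s : ℕ) (hG : G ≤ G')
    (h : Has κ s G) : Has κ s G' := by
  have hp : ∀ l, EPath G l → EPath G' l := by
    rintro l ⟨u, v, S, h⟩
    exact ⟨u, v, S, ep_mono h hG (Finset.Subset.refl _)⟩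
  have hc : ∀ l, ECyc G l → ECyc G' l := by
    rintro l ⟨u, v, w, S, h, h1, h2, h3, h4⟩
    exact ⟨u, v, w, S, ep_mono h hG (Finset.Subset.refl _), hG h1, hG h2, hG h3, h4⟩
  cases κ
  · exact hp _ h
  · exact hc _ h
  · exact hc _ h
  · exact hp _ h

theorem po_of_p {V : Type} {G : SimpleGraph V} (s : ℕ) (h : Has Kind.P s G) :
    Has Kind.Po s G := by
  obtain ⟨u, v, S, h⟩ := h
  obtain ⟨w, hw⟩ := ep_trunc h
  exact ⟨u, w, S, hw⟩

theorem eptools : EPTools where
  mono := ep_mono
  refl := ep_refl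
  single := ep_single
  symm := ep_symm
  trans := ep_trans
  trunc := ep_trunc
  close := ep_close
  shrink := ep_shrink
  hasMono := has_mono
  poOfP := po_of_p

end

end Pool.Agent.Helper60.Tri
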